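import Pool.Agent.Helper59.WH.Fin

set_option autoImplicit false

namespace Pool.Agent.Results.MP_c87a99_al.FiniteOverCommutative

open TensorProduct Pool.Agent.Helper59.WH

/-- Let `H` be a left and right noetherian weak Hopf algebra over a field `k` which is a finitely
generated right or left module over a finitely generated commutative algebra `R` (by way of an
algebra homomorphism `R → H`, whose image need not be central). Then `H` is the direct sum of
nonzero weak Hopf subalgebras `H_d = e_d H`, `d` in a finite set `D` of natural numbers, and every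
nonzero left ideal of `H_d` has Gelfand-Kirillov dimension `d`. -/
theorem result {k H : Type*} [Field k] [Ring H] [Algebra k H] [IsNoetherianRing H]
    [IsNoetherianRing Hᵐᵒᵖ] (Δ : H →ₗ[k] H ⊗[k] H) (ε : H →ₗ[k] k) (S : H →ₗ[k] H)
    (hH : WeakHopfOn Δ ε S (1 : H)) {R : Type*} [CommRing R] [Algebra k R]
    [Algebra.FiniteType k R] (ι : R →ₐ[k] H)
    (hR : ∃ (N : ℕ) (a : Fin N → H), (∀ h, ∃ r : Fin N → R, h = ∑ i, a i * ι (r i)) ∨
      (∀ h, ∃ r : Fin N → R, h = ∑ i, ι (r i) * a i)) :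
    ∃ (D : Finset ℕ) (e : ℕ → H),
      (∀ d ∈ D, e d ≠ 0 ∧ WeakHopfOn Δ ε S (e d)) ∧
      (∀ d ∈ D, ∀ d' ∈ D, d ≠ d' → e d * e d' = 0) ∧ ∑ d ∈ D, e d = 1 ∧
      ∀ d ∈ D, ∀ L : Submodule k H, L ≠ ⊥ → (∀ h, ∀ x ∈ L, h * x ∈ L) →
        (∀ x ∈ L, e d * x = x) → gkdim (e d) L = ((d : ℝ) : EReal) :=
  main_fin hH ι hR

end Pool.Agent.Results.MP_c87a99_al.FiniteOverCommutative
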