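import Pool.Agent.Helper59.WH.Dec

set_option autoImplicit false

namespace Pool.Agent.Results.MP_c87a99_al.HomogeneousDecomposition

open TensorProduct Pool.Agent.Helper59.WH

/-- Let `H` be a left and right noetherian weak Hopf algebra over a field `k` with finite
Gelfand-Kirillov dimension. Then `H` is the direct sum of finitely many nonzero weak Hopf
subalgebras `H_d = e_d H` (`d` in a finite set `D` of real numbers, `e_d` central idempotents),
and every nonzero left ideal of `H_d` has Gelfand-Kirillov dimension `d`; here `d = 0` or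
`1 ≤ d ≤ GKdim H`. -/
theorem result {k H : Type*} [Field k] [Ring H] [Algebra k H] [IsNoetherianRing H]
    [IsNoetherianRing Hᵐᵒᵖ] (Δ : H →ₗ[k] H ⊗[k] H) (ε : H →ₗ[k] k) (S : H →ₗ[k] H)
    (hH : WeakHopfOn Δ ε S (1 : H)) (hfin : gkdim (1 : H) (⊤ : Submodule k H) ≠ ⊤) :
    ∃ (D : Finset ℝ) (e : ℝ → H),
      (∀ d ∈ D, (d = 0 ∨ 1 ≤ d) ∧ (d : EReal) ≤ gkdim (1 : H) (⊤ : Submodule k H)) ∧
      (∀ d ∈ D, e d ≠ 0 ∧ WeakHopfOn Δ ε S (e d)) ∧
      (∀ d ∈ D, ∀ d' ∈ D, d ≠ d' → e d * e d' = 0) ∧ ∑ d ∈ D, e d = 1 ∧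
      ∀ d ∈ D, ∀ L : Submodule k H, L ≠ ⊥ → (∀ h, ∀ x ∈ L, h * x ∈ L) →
        (∀ x ∈ L, e d * x = x) → gkdim (e d) L = d :=
  main hH hfin

end Pool.Agent.Results.MP_c87a99_al.HomogeneousDecomposition
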